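import Pool.Agent.Lib.MP_1910d6_an.Defs

/-!
# Finite rank operators, and a local reflexivity lemma for one projection
-/

namespace Pool.Agent.Lib.MP_1910d6_an

open Filter Topology

variable {𝕜 : Type*} [RCLike 𝕜] {E F G : Type*} [NormedAddCommGroup E] [NormedSpace 𝕜 E]
  [NormedAddCommGroup F] [NormedSpace 𝕜 F] [NormedAddCommGroup G] [NormedSpace 𝕜 G]

/-- The operator has finite rank. -/
def FR (T : E →L[𝕜] F) : Prop := FiniteDimensional 𝕜 (LinearMap.range (T : E →ₗ[𝕜] F))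

theorem FR.repr {T : E →L[𝕜] F} (h : FR T) :
    ∃ (n : ℕ) (f : Fin n → StrongDual 𝕜 E) (a : Fin n → F), (∀ i, ∃ x, a i = T x) ∧
      T = ∑ i, (f i).smulRight (a i) := by
  have : FiniteDimensional 𝕜 (LinearMap.range (T : E →ₗ[𝕜] F)) := h
  set V := LinearMap.range (T : E →ₗ[𝕜] F) with hV
  let b := Module.finBasis 𝕜 V
  let T' : E →L[𝕜] V := T.codRestrict V (fun x => ⟨x, rfl⟩)
  refine ⟨_, fun i => (LinearMap.toContinuousLinearMap (b.coord i)) ∘L T',
    fun i => (b i : F), fun i => ?_, ?_⟩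
  · obtain ⟨x, hx⟩ := (b i).2
    exact ⟨x, hx.symm⟩
  · ext x
    have h1 : ((T' x : V) : F) = T x := rfl
    have h2 := congrArg (fun v : V => (v : F)) (b.sum_repr (T' x))
    simp only [Submodule.coe_sum, Submodule.coe_smul] at h2
    rw [← h1, ← h2]
    simp

theorem FR.of_le {T : E →L[𝕜] F} (V : Submodule 𝕜 F) [FiniteDimensional 𝕜 V]
    (h : ∀ x, T x ∈ V) : FR T := by
  have : LinearMap.range (T : E →ₗ[𝕜] F) ≤ V := by
    rintro _ ⟨x, rfl⟩
    exact h x
  exact Submodule.finiteDimensional_of_le this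

theorem FR.of_sum {n : ℕ} (f : Fin n → StrongDual 𝕜 E) (a : Fin n → F) :
    FR (∑ i, (f i).smulRight (a i)) := by
  have : FiniteDimensional 𝕜 (Submodule.span 𝕜 (Set.range a)) :=
    FiniteDimensional.span_of_finite 𝕜 (Set.finite_range a)
  refine FR.of_le (Submodule.span 𝕜 (Set.range a)) fun x => ?_
  rw [sum_apply]
  exact Submodule.sum_mem _ fun i _ => Submodule.smul_mem _ _ (Submodule.subset_span ⟨i, rfl⟩)

theorem FR.add {S T : E →L[𝕜] F} (hS : FR S) (hT : FR T) : FR (S + T) := by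
  have : FiniteDimensional 𝕜 (LinearMap.range (S : E →ₗ[𝕜] F)) := hS
  have : FiniteDimensional 𝕜 (LinearMap.range (T : E →ₗ[𝕜] F)) := hT
  refine FR.of_le (LinearMap.range (S : E →ₗ[𝕜] F) ⊔ LinearMap.range (T : E →ₗ[𝕜] F)) fun x => ?_
  exact Submodule.add_mem_sup ⟨x, rfl⟩ ⟨x, rfl⟩

theorem FR.comp_left {S : F →L[𝕜] G} (hS : FR S) (T : E →L[𝕜] F) : FR (S ∘L T) := by
  have : FiniteDimensional 𝕜 (LinearMap.range (S : F →ₗ[𝕜] G)) := hS
  exact FR.of_le (LinearMap.range (S : F →ₗ[𝕜] G)) fun x => ⟨T x, rfl⟩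

/-- Pointwise convergence on the range of a finite rank operator gives norm convergence of the
products. -/
theorem FR.tendsto {T : E →L[𝕜] F} (hT : FR T) {S : ℕ → F →L[𝕜] G} {S₀ : F →L[𝕜] G}
    (h : ∀ x, Tendsto (fun k => S k (T x)) atTop (𝓝 (S₀ (T x)))) :
    Tendsto (fun k => S k ∘L T) atTop (𝓝 (S₀ ∘L T)) := by
  obtain ⟨n, f, a, ha, hf⟩ := hT.repr
  have key : ∀ R : F →L[𝕜] G, R ∘L T
      = ∑ i, ContinuousLinearMap.smulRightL 𝕜 E G (f i) (R (a i)) := by
    intro R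
    rw [hf]
    ext x
    simp
  simp_rw [key]
  refine tendsto_finsetSum _ fun i _ => ?_
  refine ((ContinuousLinearMap.smulRightL 𝕜 E G (f i)).continuous.tendsto _).comp ?_
  obtain ⟨x, hx⟩ := ha i
  rw [hx]
  exact h x

/-- A dual system: linearly independent functionals `g` have a biorthogonal family. -/
theorem exists_biorthogonal {d : ℕ} (g : Fin d → StrongDual 𝕜 E) (hg : LinearIndependent 𝕜 g) :
    ∃ e : Fin d → E, ∀ i j, g j (e i) = if i = j then 1 else 0 := by
  have hsurj : Function.Surjective (LinearMap.pi fun i => (g i : E →ₗ[𝕜] 𝕜)) := by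
    rw [← LinearMap.range_eq_top]
    by_contra hne
    obtain ⟨φ, hφ, hle⟩ := Submodule.exists_le_ker_of_lt_top _ (lt_top_iff_ne_top.2 hne)
    apply hφ
    have h0 : ∀ i, φ (Pi.single i 1) = 0 := by
      have h1 : ∑ i, φ (Pi.single i 1) • g i = 0 := by
        ext x
        have h2 : φ (LinearMap.pi (fun i => (g i : E →ₗ[𝕜] 𝕜)) x) = 0 := hle ⟨x, rfl⟩
        rw [LinearMap.pi_apply_eq_sum_univ φ] at h2
        have h3 : ∀ i : Fin d, (fun j => if i = j then (1 : 𝕜) else 0) = Pi.single i 1 := by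
          intro i
          ext j
          simp [Pi.single_apply, eq_comm]
        simp_rw [h3] at h2
        simpa [mul_comm] using h2
      exact Fintype.linearIndependent_iff.1 hg _ h1
    ext i
    simpa using h0 i
  choose e he using hsurj
  refine ⟨fun i => e (Pi.single i 1), fun i j => ?_⟩
  have := congrFun (he (Pi.single i 1)) j
  simp only [LinearMap.pi_apply] at this
  rw [show g j (e (Pi.single i 1)) = _ from this, Pi.single_apply]
  simp [eq_comm]

/-- The norm of a functional on a finite product with the maximum norm. -/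
theorem sum_norm_le {r : Type*} [Fintype r] [DecidableEq r] (φ : StrongDual 𝕜 (r → E))
    (hφ : ‖φ‖ ≤ 1) :
    ∑ l, ‖φ ∘L ContinuousLinearMap.single 𝕜 (fun _ : r => E) l‖ ≤ 1 := by
  set h : r → StrongDual 𝕜 E := fun l => φ ∘L ContinuousLinearMap.single 𝕜 (fun _ : r => E) l
    with hh
  have hsum : ∀ z : r → E, φ z = ∑ l, h l (z l) := by
    intro z
    conv_lhs => rw [← Finset.univ_sum_single z]
    rw [map_sum]
    rfl
  by_contra hlt
  push Not at hlt
  -- choose slightly smaller numbers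
  obtain ⟨θ, hθ0, hθ1, hθ⟩ : ∃ θ : ℝ, 0 < θ ∧ θ < 1 ∧ 1 < ∑ l, θ * ‖h l‖ := by
    have hpos : 0 < ∑ l, ‖h l‖ := lt_trans one_pos hlt
    refine ⟨(1 + 1 / ∑ l, ‖h l‖) / 2, by positivity, ?_, ?_⟩
    · have : 1 / ∑ l, ‖h l‖ < 1 := (div_lt_one hpos).2 hlt
      linarith
    · rw [← Finset.mul_sum]
      have : (1 + 1 / ∑ l, ‖h l‖) / 2 * ∑ l, ‖h l‖ = ((∑ l, ‖h l‖) + 1) / 2 := by
        field_simp
      rw [this]
      linarith
  have hz : ∀ l, ∃ z : E, ‖z‖ ≤ 1 ∧ h l z = (‖h l z‖ : 𝕜) ∧ θ * ‖h l‖ ≤ ‖h l z‖ := by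
    intro l
    by_cases h0 : h l = 0
    · exact ⟨0, by simp, by simp, by simp [h0]⟩
    · have hn : 0 < ‖h l‖ := norm_pos_iff.2 h0
      obtain ⟨z, hz1, hz2⟩ := (h l).exists_lt_apply_of_lt_opNorm
        (show θ * ‖h l‖ < ‖h l‖ by nlinarith)
      have hne : h l z ≠ 0 := by
        intro h3
        rw [h3, norm_zero] at hz2
        nlinarith
      set c : 𝕜 := (‖h l z‖ : 𝕜) / h l z with hc
      have hcn : ‖c‖ = 1 := by
        rw [hc, norm_div, RCLike.norm_ofReal, abs_of_nonneg (norm_nonneg _)]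
        exact div_self (norm_ne_zero_iff.2 hne)
      refine ⟨c • z, ?_, ?_, ?_⟩
      · rw [norm_smul, hcn, one_mul]
        exact hz1.le
      · rw [map_smul, smul_eq_mul, norm_mul, hcn, one_mul, hc]
        field_simp
      · rw [map_smul, norm_smul, hcn, one_mul]
        exact hz2.le
  choose z hz1 hz2 hz3 using hz
  have h1 : ‖φ z‖ ≤ 1 := by
    have hz4 : ‖z‖ ≤ 1 := (pi_norm_le_iff_of_nonneg zero_le_one).2 hz1
    calc ‖φ z‖ ≤ ‖φ‖ * ‖z‖ := φ.le_opNorm z
      _ ≤ 1 * 1 := mul_le_mul hφ hz4 (norm_nonneg _) zero_le_one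
      _ = 1 := one_mul 1
  have h2 : φ z = ((∑ l, ‖h l (z l)‖ : ℝ) : 𝕜) := by
    rw [hsum, RCLike.ofReal_sum]
    exact Finset.sum_congr rfl fun l _ => hz2 l
  rw [h2, RCLike.norm_ofReal, abs_of_nonneg (Finset.sum_nonneg fun l _ => norm_nonneg _)] at h1
  have h3 : ∑ l, θ * ‖h l‖ ≤ ∑ l, ‖h l (z l)‖ := Finset.sum_le_sum fun l _ => hz3 l
  linarith

theorem exists_basis_of_finite (V : Submodule 𝕜 F) [FiniteDimensional 𝕜 V] :
    ∃ (d : ℕ) (g : Fin d → F), LinearIndependent 𝕜 g ∧ (∀ i, g i ∈ V) ∧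
      ∀ f ∈ V, ∃ a : Fin d → 𝕜, f = ∑ i, a i • g i := by
  let b := Module.finBasis 𝕜 V
  refine ⟨_, fun i => (b i : F), b.linearIndependent.map' V.subtype (Submodule.ker_subtype V),
    fun i => (b i).2, fun f hf => ⟨b.repr ⟨f, hf⟩, ?_⟩⟩
  have h1 := congrArg (fun v : V => (v : F)) (b.sum_repr ⟨f, hf⟩)
  simp only [Submodule.coe_sum, Submodule.coe_smul] at h1
  exact h1.symm

/-- A finite rank operator in terms of a basis of its range. -/
theorem FR.repr_basis {T : E →L[𝕜] F} (h : FR T) :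
    ∃ (d : ℕ) (φ : Fin d → StrongDual 𝕜 E) (g : Fin d → F), LinearIndependent 𝕜 g ∧
      (∀ i, ∃ x, g i = T x) ∧ ∀ x, T x = ∑ i, φ i x • g i := by
  have : FiniteDimensional 𝕜 (LinearMap.range (T : E →ₗ[𝕜] F)) := h
  set V := LinearMap.range (T : E →ₗ[𝕜] F) with hV
  let b := Module.finBasis 𝕜 V
  let T' : E →L[𝕜] V := T.codRestrict V (fun x => ⟨x, rfl⟩)
  refine ⟨_, fun i => (LinearMap.toContinuousLinearMap (b.coord i)) ∘L T',
    fun i => (b i : F), b.linearIndependent.map' V.subtype (Submodule.ker_subtype V),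
    fun i => ?_, fun x => ?_⟩
  · obtain ⟨x, hx⟩ := (b i).2
    exact ⟨x, hx.symm⟩
  · have h1 : ((T' x : V) : F) = T x := rfl
    have h2 := congrArg (fun v : V => (v : F)) (b.sum_repr (T' x))
    simp only [Submodule.coe_sum, Submodule.coe_smul] at h2
    rw [← h1, ← h2]
    simp

/-- Helly's lemma without norms. -/
theorem exists_eval {s : ℕ} (f : Fin s → StrongDual 𝕜 E)
    (φ : StrongDual 𝕜 (StrongDual 𝕜 E)) : ∃ e : E, ∀ k, f k e = φ (f k) := by
  set Φ : E →ₗ[𝕜] (Fin s → 𝕜) := LinearMap.pi fun i => (f i : E →ₗ[𝕜] 𝕜) with hΦ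
  by_cases hb : (fun k => φ (f k)) ∈ LinearMap.range Φ
  · obtain ⟨e, he⟩ := hb
    exact ⟨e, fun k => congrFun he k⟩
  · exfalso
    obtain ⟨l, hl1, hl2⟩ := Submodule.exists_le_ker_of_notMem hb
    have h1 : ∀ i : Fin s, (fun j => if i = j then (1 : 𝕜) else 0) = Pi.single i 1 := by
      intro i
      ext j
      simp [Pi.single_apply, eq_comm]
    have h2 : ∑ i, l (Pi.single i 1) • f i = 0 := by
      ext x
      have h3 : l (Φ x) = 0 := hl2 ⟨x, rfl⟩
      rw [LinearMap.pi_apply_eq_sum_univ l] at h3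
      simp_rw [h1] at h3
      simpa [mul_comm, hΦ] using h3
    apply hl1
    rw [LinearMap.pi_apply_eq_sum_univ l]
    simp_rw [h1]
    have h4 := congrArg φ h2
    rw [map_sum, map_zero] at h4
    simpa [mul_comm] using h4

/-- A finite net of the unit ball for finitely many functionals. -/
theorem exists_net {d : ℕ} (g : Fin d → StrongDual 𝕜 E) {δ : ℝ} (hδ : 0 < δ) :
    ∃ (r : ℕ) (y : Fin r → E), (∀ l, ‖y l‖ ≤ 1) ∧
      ∀ z : E, ‖z‖ ≤ 1 → ∃ l, ∀ i, ‖g i z - g i (y l)‖ ≤ δ := by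
  let Φ : E →L[𝕜] (Fin d → 𝕜) := ContinuousLinearMap.pi g
  have htb : TotallyBounded (Φ '' Metric.closedBall 0 1) := by
    have hbd : Bornology.IsBounded (Φ '' Metric.closedBall 0 1) :=
      Φ.lipschitz.isBounded_image Metric.isBounded_closedBall
    exact hbd.isCompact_closure.totallyBounded.subset subset_closure
  obtain ⟨t, hts, htf, htc⟩ := Metric.finite_approx_of_totallyBounded htb δ hδ
  obtain ⟨r, a, ha⟩ := htf.fin_param
  have hy : ∀ l, ∃ y : E, ‖y‖ ≤ 1 ∧ Φ y = a l := by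
    intro l
    obtain ⟨y, hy1, hy2⟩ := hts (show a l ∈ t by rw [← ha.2]; exact ⟨l, rfl⟩)
    exact ⟨y, by simpa using hy1, hy2⟩
  choose y hy1 hy2 using hy
  refine ⟨r, y, hy1, fun z hz => ?_⟩
  have hz' := htc ⟨z, by simpa using hz, rfl⟩
  simp only [Set.mem_iUnion] at hz'
  obtain ⟨x, hx, hzx⟩ := hz'
  rw [← ha.2] at hx
  obtain ⟨l, rfl⟩ := hx
  refine ⟨l, fun i => ?_⟩
  have h1 : ‖Φ z - Φ (y l)‖ ≤ δ := by
    rw [hy2, ← dist_eq_norm]
    exact (Metric.mem_ball.1 hzx).le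
  exact (norm_le_pi_norm (Φ z - Φ (y l)) i).trans h1

/-- The separation step: among the tuples `x` with `f k (x i) = φ i (f k)` there is one for which
all the vectors `∑ i, g i (y l) • x i` have norm at most `c + 1`. -/
theorem exists_tuple {v : StrongDual 𝕜 E →L[𝕜] StrongDual 𝕜 E} {c : ℝ} (hc : ‖v‖ ≤ c)
    {d : ℕ} {g : Fin d → StrongDual 𝕜 E} {φ : Fin d → StrongDual 𝕜 (StrongDual 𝕜 E)}
    (hexp : ∀ f, v f = ∑ i, φ i f • g i)
    {s : ℕ} (f : Fin s → StrongDual 𝕜 E)
    {r : ℕ} (y : Fin r → E) (hy : ∀ l, ‖y l‖ ≤ 1) :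
    ∃ x : Fin d → E, (∀ i k, f k (x i) = φ i (f k)) ∧
      ∀ l, ‖∑ i, g i (y l) • x i‖ ≤ c + 1 := by
  choose e he using fun i => exists_eval f (φ i)
  let D : (Fin d → E) →ₗ[𝕜] (Fin r → E) :=
    { toFun := fun x l => ∑ i, g i (y l) • x i
      map_add' := fun x z => by
        ext l
        simp [Finset.sum_add_distrib]
      map_smul' := fun a x => by
        ext l
        simp only [Pi.smul_apply, RingHom.id_apply, Finset.smul_sum]
        exact Finset.sum_congr rfl fun i _ => smul_comm _ _ _ }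
  have hD : ∀ x l, D x l = ∑ i, g i (y l) • x i := fun x l => rfl
  let K : Submodule 𝕜 (Fin d → E) :=
    { carrier := {x | ∀ i k, f k (x i) = 0}
      zero_mem' := fun i j => by simp
      add_mem' := fun {a b} ha hb i j => by
        simp only [Pi.add_apply, map_add]
        rw [ha i j, hb i j, add_zero]
      smul_mem' := fun a x hx i j => by
        simp only [Pi.smul_apply, map_smul]
        rw [hx i j, smul_zero] }
  let S : Submodule 𝕜 (Fin r → E) := K.map D
  obtain ⟨χ₀, hχ₀, hχ₁⟩ := exists_dual_vector'' 𝕜 (Submodule.Quotient.mk (p := S) (D e))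
  set χ : StrongDual 𝕜 (Fin r → E) := χ₀ ∘L S.mkQL with hχ
  have hχn : ‖χ‖ ≤ 1 := by
    refine ContinuousLinearMap.opNorm_le_bound _ zero_le_one fun z => ?_
    calc ‖χ z‖ ≤ ‖χ₀‖ * ‖Submodule.Quotient.mk (p := S) z‖ := χ₀.le_opNorm _
      _ ≤ 1 * ‖z‖ := mul_le_mul hχ₀ (Submodule.Quotient.norm_mk_le S z) (norm_nonneg _) zero_le_one
  have hχD : χ (D e) = (‖Submodule.Quotient.mk (p := S) (D e)‖ : 𝕜) := hχ₁
  have hχK : ∀ x ∈ K, χ (D x) = 0 := by
    intro x hx
    have h1 : Submodule.Quotient.mk (p := S) (D x) = 0 :=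
      (Submodule.Quotient.mk_eq_zero S).2 ⟨x, hx, rfl⟩
    show χ₀ (Submodule.Quotient.mk (p := S) (D x)) = 0
    rw [h1, map_zero]
  have hsum1 := sum_norm_le χ hχn
  set h : Fin r → StrongDual 𝕜 E :=
    fun l => χ ∘L ContinuousLinearMap.single 𝕜 (fun _ : Fin r => E) l with hh
  have hsum : ∀ z : Fin r → E, χ z = ∑ l, h l (z l) := by
    intro z
    conv_lhs => rw [← Finset.univ_sum_single z]
    rw [map_sum]
    rfl
  set ψ : Fin d → StrongDual 𝕜 E := fun i => ∑ l, g i (y l) • h l with hψ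
  have hχψ : ∀ x : Fin d → E, χ (D x) = ∑ i, ψ i (x i) := by
    intro x
    rw [hsum]
    simp only [hD, map_sum, map_smul, hψ, sum_apply, smul_apply, smul_eq_mul]
    exact Finset.sum_comm
  have heψ : ∀ i, ψ i (e i) = φ i (ψ i) := by
    intro i
    have hker : ⨅ j, LinearMap.ker ((f j : E →ₗ[𝕜] 𝕜)) ≤ LinearMap.ker (ψ i : E →ₗ[𝕜] 𝕜) := by
      intro z hz
      have hz' : ∀ j, f j z = 0 := by
        intro j
        exact (Submodule.mem_iInf _).1 hz j
      have h1 := hχK (Pi.single i z) (by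
        intro k j
        by_cases hk : k = i
        · subst hk
          simpa using hz' j
        · simp [hk])
      rw [hχψ, Finset.sum_eq_single i] at h1
      · simpa using h1
      · intro k _ hk
        simp [hk]
      · simp
    obtain ⟨a, ha⟩ := (Submodule.mem_span_range_iff_exists_fun 𝕜).1
      (mem_span_of_iInf_ker_le_ker hker)
    have ha' : ψ i = ∑ j, a j • f j := by
      ext z
      have := congrArg (fun T => T z) ha
      simp only [LinearMap.sum_apply, LinearMap.smul_apply] at this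
      simp only [sum_apply, smul_apply]
      exact this.symm
    rw [ha', map_sum]
    simp only [sum_apply, smul_apply, map_smul, he]
  have hval : χ (D e) = ∑ l, v (h l) (y l) := by
    rw [hχψ]
    have h1 : ∀ i, ψ i (e i) = ∑ l, φ i (h l) * g i (y l) := by
      intro i
      rw [heψ i]
      simp only [hψ, map_sum, map_smul, smul_eq_mul]
      exact Finset.sum_congr rfl fun l _ => mul_comm _ _
    simp_rw [h1]
    rw [Finset.sum_comm]
    refine Finset.sum_congr rfl fun l _ => ?_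
    conv_rhs => rw [hexp (h l)]
    simp [sum_apply]
  have hqc : ‖Submodule.Quotient.mk (p := S) (D e)‖ ≤ c := by
    have h1 : ‖χ (D e)‖ = ‖Submodule.Quotient.mk (p := S) (D e)‖ := by
      rw [hχD, RCLike.norm_ofReal, abs_of_nonneg (norm_nonneg _)]
    rw [← h1, hval]
    have hc0 : 0 ≤ c := (norm_nonneg v).trans hc
    calc ‖∑ l, v (h l) (y l)‖ ≤ ∑ l, ‖v (h l) (y l)‖ := norm_sum_le _ _
      _ ≤ ∑ l, c * ‖h l‖ := Finset.sum_le_sum fun l _ => by
          calc ‖v (h l) (y l)‖ ≤ ‖v (h l)‖ * ‖y l‖ := (v (h l)).le_opNorm _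
            _ ≤ (c * ‖h l‖) * 1 := by
                refine mul_le_mul ?_ (hy l) (norm_nonneg _) (by positivity)
                exact (v.le_opNorm _).trans (mul_le_mul_of_nonneg_right hc (norm_nonneg _))
            _ = c * ‖h l‖ := mul_one _
      _ = c * ∑ l, ‖h l‖ := (Finset.mul_sum _ _ _).symm
      _ ≤ c * 1 := mul_le_mul_of_nonneg_left hsum1 hc0
      _ = c := mul_one c
  obtain ⟨m, hm1, hm2⟩ := Submodule.Quotient.norm_mk_lt
    (Submodule.Quotient.mk (p := S) (D e)) one_pos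
  have hm3 : m - D e ∈ S := (Submodule.Quotient.eq S).1 hm1
  obtain ⟨z, hz, hzm⟩ := hm3
  refine ⟨e + z, fun i j => ?_, fun l => ?_⟩
  · rw [Pi.add_apply, map_add, he, hz i j, add_zero]
  · have h1 : D (e + z) = m := by
      rw [map_add, hzm]
      abel
    rw [← hD, h1]
    exact (norm_le_pi_norm m l).trans (hm2.le.trans (by linarith))

/-- Local reflexivity for a finite rank operator `v` of the dual: given finitely many functionals
`f k`, there is a finite rank operator `w` of `E` with `f k ∘ w = v (f k)`, with norm at most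
`2 (‖v‖ + 1)`, such that `f ∘ w` is in the range of `v` for every `f`. -/
theorem exists_preadjoint_aux {v : StrongDual 𝕜 E →L[𝕜] StrongDual 𝕜 E} (hv : FR v)
    {c : ℝ} (hc : ‖v‖ ≤ c) {s : ℕ} (f : Fin s → StrongDual 𝕜 E) :
    ∃ w : E →L[𝕜] E, FR w ∧ ‖w‖ ≤ 2 * (c + 1) ∧ (∀ k, f k ∘L w = v (f k)) ∧
      ∀ h : StrongDual 𝕜 E, ∃ h', h ∘L w = v h' := by
  have hc0 : 0 ≤ c := (norm_nonneg v).trans hc
  obtain ⟨d, φ, g, hgi, hgv, hexp⟩ := hv.repr_basis
  obtain ⟨e, he⟩ := exists_biorthogonal g hgi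
  set κ := ∑ i, ‖e i‖ with hκ
  have hκ0 : 0 ≤ κ := Finset.sum_nonneg fun i _ => norm_nonneg _
  set δ : ℝ := 1 / (2 * (κ + 1)) with hδ
  have hδ0 : 0 < δ := by positivity
  have hκδ : κ * δ ≤ 1 / 2 := by
    rw [hδ, mul_one_div, div_le_div_iff₀ (by positivity) (by positivity)]
    linarith
  obtain ⟨r, y, hy, hnet⟩ := exists_net g hδ0
  obtain ⟨x, hx, hxl⟩ := exists_tuple hc hexp f y hy
  set w : E →L[𝕜] E := ∑ i, (g i).smulRight (x i) with hw
  have hwz : ∀ z, w z = ∑ i, g i z • x i := fun z => by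
    rw [hw]
    simp
  refine ⟨w, FR.of_sum g x, ?_, fun k => ?_, fun h => ?_⟩
  · have hn : ‖w‖ ≤ (c + 1) + ‖w‖ * (κ * δ) := by
      refine ContinuousLinearMap.opNorm_le_of_unit_norm (by positivity) fun z hz => ?_
      obtain ⟨l, hl⟩ := hnet z hz.le
      set z' : E := ∑ i, (g i z - g i (y l)) • e i with hz'
      have h1 : w z = w (y l) + w z' := by
        have h2 : ∀ j, g j z' = g j z - g j (y l) := by
          intro j
          rw [hz', map_sum, Finset.sum_eq_single j]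
          · rw [map_smul, he, if_pos rfl, smul_eq_mul, mul_one]
          · intro i _ hij
            rw [map_smul, he, if_neg hij, smul_zero]
          · simp
        rw [hwz, hwz, hwz, ← Finset.sum_add_distrib]
        refine Finset.sum_congr rfl fun i _ => ?_
        rw [h2, ← add_smul]
        congr 1
        ring
      have h3 : ‖z'‖ ≤ κ * δ := by
        calc ‖z'‖ ≤ ∑ i, ‖(g i z - g i (y l)) • e i‖ := norm_sum_le _ _
          _ ≤ ∑ i, ‖e i‖ * δ := Finset.sum_le_sum fun i _ => by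
              rw [norm_smul, mul_comm]
              exact mul_le_mul_of_nonneg_left (hl i) (norm_nonneg _)
          _ = κ * δ := (Finset.sum_mul _ _ _).symm
      rw [h1]
      refine (norm_add_le _ _).trans (add_le_add ?_ ?_)
      · rw [hwz]
        exact hxl l
      · exact (w.le_opNorm _).trans (mul_le_mul_of_nonneg_left h3 (norm_nonneg _))
    have h4 : ‖w‖ * (κ * δ) ≤ ‖w‖ * (1 / 2) := mul_le_mul_of_nonneg_left hκδ (norm_nonneg _)
    linarith
  · ext z
    rw [ContinuousLinearMap.comp_apply, hwz, map_sum, hexp (f k), sum_apply]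
    refine Finset.sum_congr rfl fun i _ => ?_
    rw [map_smul, hx, smul_apply, smul_eq_mul, smul_eq_mul, mul_comm]
  · choose q hq using hgv
    refine ⟨∑ i, h (x i) • q i, ?_⟩
    rw [map_sum]
    ext z
    rw [ContinuousLinearMap.comp_apply, hwz, map_sum, sum_apply]
    refine Finset.sum_congr rfl fun i _ => ?_
    rw [map_smul, map_smul, ← hq, smul_apply, smul_eq_mul, smul_eq_mul, mul_comm]

/-- The case of a projection: a finite rank operator `w` of `E` whose adjoint is a projection onto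
the range of `v`. -/
theorem exists_preadjoint {v : StrongDual 𝕜 E →L[𝕜] StrongDual 𝕜 E} (hv : IsFinRankProj v)
    {c : ℝ} (hc : ‖v‖ ≤ c) :
    ∃ w : E →L[𝕜] E, FR w ∧ ‖w‖ ≤ 2 * (c + 1) ∧ (∀ f, v f ∘L w = v f) ∧
      ∀ f : StrongDual 𝕜 E, v (f ∘L w) = f ∘L w := by
  have hvv : ∀ f, v (v f) = v f := fun f => congrArg (fun T => T f) hv.1
  obtain ⟨d, φ, g, hgi, hgv, hexp⟩ := FR.repr_basis (T := v) hv.2
  obtain ⟨w, hw1, hw2, hw3, hw4⟩ := exists_preadjoint_aux (v := v) hv.2 hc g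
  refine ⟨w, hw1, hw2, fun f => ?_, fun f => ?_⟩
  · have h1 : ∀ i, g i ∘L w = g i := by
      intro i
      rw [hw3]
      obtain ⟨x, hx⟩ := hgv i
      rw [hx, hvv]
    ext z
    have h2 : ∀ z, v f z = ∑ i, φ i f * g i z := by
      intro z
      rw [hexp f]
      simp [sum_apply]
    rw [ContinuousLinearMap.comp_apply, h2, h2]
    refine Finset.sum_congr rfl fun i _ => ?_
    rw [show g i (w z) = g i z from congrArg (fun T => T z) (h1 i)]
  · obtain ⟨h', hh'⟩ := hw4 f
    rw [hh', hvv]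

end Pool.Agent.Lib.MP_1910d6_an
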