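import Pool.Agent.Lib.MP_1910d6_an.A1

/-!
# From a weak* `π`-basis of the dual to projections of the space
-/

namespace Pool.Agent.Lib.MP_1910d6_an

open Filter Topology

variable {𝕜 : Type*} [RCLike 𝕜] {E F : Type*} [NormedAddCommGroup E] [NormedSpace 𝕜 E]
  [NormedAddCommGroup F] [NormedSpace 𝕜 F]

/-- An absorbing approximating sequence. -/
structure Absorbing (A : ℕ → E →L[𝕜] E) : Prop where
  fr : ∀ j, FR (A j)
  conv : ∀ x, Tendsto (fun j => A j x) atTop (𝓝 x)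
  abs : ∀ i, Tendsto (fun j => A i ∘L A j) atTop (𝓝 (A i))

theorem exists_bound [CompleteSpace E] {A : ℕ → E →L[𝕜] F} {L : E → F}
    (h : ∀ x, Tendsto (fun j => A j x) atTop (𝓝 (L x))) : ∃ C, 0 ≤ C ∧ ∀ j, ‖A j‖ ≤ C := by
  obtain ⟨C, hC⟩ := banach_steinhaus (g := A) fun x => by
    obtain ⟨M, hM⟩ := (h x).norm.bddAbove_range
    exact ⟨M, fun i => hM ⟨i, rfl⟩⟩
  exact ⟨max C 0, le_max_right _ _, fun j => (hC j).trans (le_max_left _ _)⟩

theorem exists_bound_dual [CompleteSpace E] {v : ℕ → StrongDual 𝕜 E →L[𝕜] StrongDual 𝕜 E}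
    (h : ∀ (f : StrongDual 𝕜 E) (x : E), Tendsto (fun n => v n f x) atTop (𝓝 (f x))) :
    ∃ C, 0 ≤ C ∧ ∀ j, ‖v j‖ ≤ C := by
  obtain ⟨C, hC⟩ := banach_steinhaus (g := v) fun f => by
    obtain ⟨M, -, hM⟩ := exists_bound (A := fun n => v n f) (L := f) (h f)
    exact ⟨M, hM⟩
  exact ⟨max C 0, le_max_right _ _, fun j => (hC j).trans (le_max_left _ _)⟩

/-- The bounded approximation property of `E`. -/
theorem exists_bap {v : ℕ → StrongDual 𝕜 E →L[𝕜] StrongDual 𝕜 E} (hfr : ∀ n, FR (v n))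
    {c : ℝ} (hc : ∀ n, ‖v n‖ ≤ c)
    (hconv : ∀ (f : StrongDual 𝕜 E) (x : E), Tendsto (fun n => v n f x) atTop (𝓝 (f x)))
    {s : ℕ} (x : Fin s → E) {ε : ℝ} (hε : 0 < ε) :
    ∃ b : E →L[𝕜] E, FR b ∧ ‖b‖ ≤ 2 * (c + 1) ∧ ∀ k, ‖b (x k) - x k‖ ≤ ε := by
  letI : NormedSpace ℝ E := NormedSpace.restrictScalars ℝ 𝕜 E
  have hst : IsScalarTower ℝ 𝕜 E := ⟨fun a b z => by
    change (a • b) • z = (algebraMap ℝ 𝕜 a) • (b • z)
    rw [smul_smul, Algebra.smul_def]⟩
  set C : Set (Fin s → E) :=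
    {z | ∃ b : E →L[𝕜] E, FR b ∧ ‖b‖ ≤ 2 * (c + 1) ∧ z = fun k => b (x k)} with hC
  have hconvC : Convex ℝ C := by
    rintro _ ⟨b, hb1, hb2, rfl⟩ _ ⟨b', hb1', hb2', rfl⟩ α β hα hβ hαβ
    refine ⟨(α : 𝕜) • b + (β : 𝕜) • b', ?_, ?_, ?_⟩
    · have : FiniteDimensional 𝕜 (LinearMap.range (b : E →ₗ[𝕜] E)) := hb1
      have : FiniteDimensional 𝕜 (LinearMap.range (b' : E →ₗ[𝕜] E)) := hb1'
      exact FR.of_le (LinearMap.range (b : E →ₗ[𝕜] E) ⊔ LinearMap.range (b' : E →ₗ[𝕜] E))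
        fun z => Submodule.add_mem_sup (Submodule.smul_mem _ _ ⟨z, rfl⟩)
          (Submodule.smul_mem _ _ ⟨z, rfl⟩)
    · refine (norm_add_le _ _).trans ?_
      rw [norm_smul, norm_smul, RCLike.norm_ofReal, RCLike.norm_ofReal, abs_of_nonneg hα,
        abs_of_nonneg hβ]
      calc α * ‖b‖ + β * ‖b'‖ ≤ α * (2 * (c + 1)) + β * (2 * (c + 1)) :=
            add_le_add (mul_le_mul_of_nonneg_left hb2 hα) (mul_le_mul_of_nonneg_left hb2' hβ)
        _ = 2 * (c + 1) := by rw [← add_mul, hαβ, one_mul]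
    · ext k
      simp only [Pi.add_apply, Pi.smul_apply, add_apply, smul_apply]
      rw [RCLike.real_smul_eq_coe_smul (K := 𝕜), RCLike.real_smul_eq_coe_smul (K := 𝕜)]
  have hmem : x ∈ closure C := by
    by_contra hx
    obtain ⟨f, t, h1, h2⟩ := RCLike.geometric_hahn_banach_closed_point (𝕜 := 𝕜) hconvC.closure
      isClosed_closure hx
    set fk : Fin s → StrongDual 𝕜 E :=
      fun k => f ∘L ContinuousLinearMap.single 𝕜 (fun _ : Fin s => E) k with hfk
    have hsum : ∀ z : Fin s → E, f z = ∑ k, fk k (z k) := by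
      intro z
      conv_lhs => rw [← Finset.univ_sum_single z]
      rw [map_sum]
      rfl
    have h3 : Tendsto (fun n => RCLike.re (∑ k, v n (fk k) (x k))) atTop (𝓝 (RCLike.re (f x))) := by
      rw [hsum]
      exact (RCLike.continuous_re.tendsto _).comp
        (tendsto_finsetSum _ fun k _ => hconv (fk k) (x k))
    obtain ⟨n, hn⟩ := (h3.eventually (lt_mem_nhds h2)).exists
    obtain ⟨b, hb1, hb2, hb3, -⟩ := exists_preadjoint_aux (hfr n) (hc n) fk
    have h4 : f (fun k => b (x k)) = ∑ k, v n (fk k) (x k) := by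
      rw [hsum]
      exact Finset.sum_congr rfl fun k _ => congrArg (fun T => T (x k)) (hb3 k)
    have h5 := h1 _ (subset_closure ⟨b, hb1, hb2, rfl⟩)
    rw [h4] at h5
    exact lt_asymm h5 hn
  obtain ⟨z, ⟨b, hb1, hb2, rfl⟩, hz⟩ := Metric.mem_closure_iff.1 hmem ε hε
  refine ⟨b, hb1, hb2, fun k => ?_⟩
  rw [dist_eq_norm] at hz
  rw [norm_sub_rev]
  exact (norm_le_pi_norm (x - fun k => b (x k)) k).trans hz.le

/-- One step of the construction: projections `P` with adjoint onto the range of `v k`. -/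
theorem exists_step {v : ℕ → StrongDual 𝕜 E →L[𝕜] StrongDual 𝕜 E} (hv : IsWeakStarPiBasis v)
    {c : ℝ} (hc0 : 0 ≤ c) (hc : ∀ n, ‖v n‖ ≤ c) :
    ∃ M : ℝ, 0 ≤ M ∧ ∀ (N : ℕ) {s : ℕ} (x : Fin s → E) (ε : ℝ), 0 < ε →
      ∃ (k : ℕ) (P : E →L[𝕜] E), N ≤ k ∧ FR P ∧ ‖P‖ ≤ M ∧ (∀ f, v k f ∘L P = v k f) ∧
      (∀ f, v k (f ∘L P) = f ∘L P) ∧ ∀ i, ‖P (x i) - x i‖ ≤ ε := by
  obtain ⟨hv1, hv2, hv3⟩ := hv
  set L := 2 * (c + 1) with hL
  have hL0 : 0 ≤ L := by positivity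
  set Cp := L + L * (1 + L) with hCp
  have hCp0 : 0 ≤ Cp := by positivity
  refine ⟨c * Cp + L + L * (c * Cp), by positivity, fun N s x ε hε => ?_⟩
  have hη : 0 < ε / (2 * ((1 + L) * (1 + L))) := by positivity
  obtain ⟨b, hbf, hbn, hbx⟩ := exists_bap (fun n => (hv1 n).2) hc hv3 x hη
  obtain ⟨w, hwf, hwn, hwv, -⟩ := exists_preadjoint (hv1 N) (hc N)
  set p : E →L[𝕜] E := b + w ∘L (1 - b) with hp
  have hpx : ∀ x, p x = b x + w (x - b x) := fun x => rfl
  have hpn : ‖p‖ ≤ Cp := by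
    have h1 : ‖(1 : E →L[𝕜] E) - b‖ ≤ 1 + L :=
      (norm_sub_le _ _).trans (add_le_add ContinuousLinearMap.norm_id_le hbn)
    refine (norm_add_le _ _).trans (add_le_add hbn ?_)
    exact (ContinuousLinearMap.opNorm_comp_le _ _).trans
      (mul_le_mul hwn h1 (norm_nonneg _) hL0)
  have hpv : ∀ f, v N f ∘L p = v N f := by
    intro f
    ext x
    have h1 : v N f (w (x - b x)) = v N f (x - b x) := congrArg (fun T => T (x - b x)) (hwv f)
    rw [ContinuousLinearMap.comp_apply, hpx, map_add, h1, map_sub]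
    ring
  have hpε : ∀ i, ‖p (x i) - x i‖ ≤ ε / (2 * (1 + L)) := by
    intro i
    have h1 : p (x i) - x i = (b (x i) - x i) - w (b (x i) - x i) := by
      rw [hpx, map_sub, map_sub]
      abel
    rw [h1]
    calc ‖(b (x i) - x i) - w (b (x i) - x i)‖
        ≤ ‖b (x i) - x i‖ + ‖w (b (x i) - x i)‖ := norm_sub_le _ _
      _ ≤ ‖b (x i) - x i‖ + L * ‖b (x i) - x i‖ := add_le_add le_rfl
          ((w.le_opNorm _).trans (mul_le_mul_of_nonneg_right hwn (norm_nonneg _)))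
      _ = (1 + L) * ‖b (x i) - x i‖ := by ring
      _ ≤ (1 + L) * (ε / (2 * ((1 + L) * (1 + L)))) :=
          mul_le_mul_of_nonneg_left (hbx i) (by positivity)
      _ = ε / (2 * (1 + L)) := by
          field_simp
  have hpf : FR p := FR.add hbf (hwf.comp_left _)
  obtain ⟨n, f, e, -, hpe⟩ := hpf.repr
  set A : ℕ → E →L[𝕜] E := fun k => ∑ i, (v k (f i)).smulRight (e i) with hA
  have hAg : ∀ k (g : StrongDual 𝕜 E), g ∘L A k = v k (g ∘L p) := by
    intro k g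
    have h1 : g ∘L p = ∑ i, g (e i) • f i := by
      ext x
      rw [ContinuousLinearMap.comp_apply, hpe]
      simp [mul_comm]
    rw [h1]
    ext x
    simp [hA, mul_comm]
  have hAn : ∀ k, ‖A k‖ ≤ c * Cp := by
    intro k
    refine ContinuousLinearMap.opNorm_le_bound _ (by positivity) fun x => ?_
    refine NormedSpace.norm_le_dual_bound 𝕜 _ (by positivity) fun g => ?_
    have h1 : g (A k x) = v k (g ∘L p) x := congrArg (fun T => T x) (hAg k g)
    rw [h1]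
    calc ‖v k (g ∘L p) x‖ ≤ ‖v k (g ∘L p)‖ * ‖x‖ := (v k (g ∘L p)).le_opNorm x
      _ ≤ (c * (‖g‖ * Cp)) * ‖x‖ := by
          refine mul_le_mul_of_nonneg_right ?_ (norm_nonneg _)
          refine ((v k).le_opNorm _).trans (mul_le_mul (hc k) ?_ (norm_nonneg _) hc0)
          exact (ContinuousLinearMap.opNorm_comp_le _ _).trans
            (mul_le_mul_of_nonneg_left hpn (norm_nonneg _))
      _ = c * Cp * ‖x‖ * ‖g‖ := by ring
  have hAx : ∀ x, Tendsto (fun k => A k x) atTop (𝓝 (p x)) := by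
    intro x
    have h1 : ∀ k, A k x = ∑ i, v k (f i) x • e i := fun k => by simp [hA]
    have h2 : p x = ∑ i, f i x • e i := by rw [hpe]; simp
    simp_rw [h1]
    rw [h2]
    exact tendsto_finsetSum _ fun i _ => (hv3 (f i) x).smul_const (e i)
  have hev : ∀ᶠ k in atTop, ∀ i, ‖A k (x i) - x i‖ < ε / (1 + L) := by
    refine Filter.eventually_all.2 fun i => ?_
    have h1 : Tendsto (fun k => ‖A k (x i) - x i‖) atTop (𝓝 ‖p (x i) - x i‖) :=
      ((hAx (x i)).sub_const (x i)).norm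
    refine h1.eventually (gt_mem_nhds ((hpε i).trans_lt ?_))
    rw [div_lt_div_iff₀ (by positivity) (by positivity)]
    nlinarith [mul_pos hε (show (0 : ℝ) < 1 + L by positivity)]
  obtain ⟨k, hk1, hk2⟩ := (hev.and (eventually_ge_atTop N)).exists
  obtain ⟨w', hwf', hwn', hwv', hwr'⟩ := exists_preadjoint (hv1 k) (hc k)
  have hAr : ∀ g : StrongDual 𝕜 E, v k (g ∘L A k) = g ∘L A k := by
    intro g
    rw [hAg]
    exact congrArg (fun T => T (g ∘L p)) (hv1 k).1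
  set P : E →L[𝕜] E := A k + w' - w' ∘L A k with hP
  have hPx : ∀ z, P z = A k z + w' z - w' (A k z) := fun z => rfl
  have hgP : ∀ g : StrongDual 𝕜 E, g ∘L P = g ∘L A k + g ∘L w' - (g ∘L w') ∘L A k := by
    intro g
    ext z
    change g (P z) = g (A k z) + g (w' z) - g (w' (A k z))
    rw [hPx, map_sub, map_add]
  refine ⟨k, P, hk2, ?_, ?_, fun g => ?_, fun g => ?_, fun i => ?_⟩
  · have h1 : P = A k + w' ∘L (1 - A k) := by
      ext z
      change A k z + w' z - w' (A k z) = A k z + w' (z - A k z)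
      rw [map_sub]
      abel
    rw [h1]
    exact FR.add (FR.of_sum _ _) (hwf'.comp_left _)
  · refine (norm_sub_le _ _).trans (add_le_add ((norm_add_le _ _).trans
      (add_le_add (hAn k) hwn')) ?_)
    exact (ContinuousLinearMap.opNorm_comp_le _ _).trans
      (mul_le_mul hwn' (hAn k) (norm_nonneg _) hL0)
  · rw [hgP, hwv']
    abel
  · rw [hgP, map_sub, map_add, hAr, hwr', hAr]
  · have h1 : P (x i) - x i = (A k (x i) - x i) - w' (A k (x i) - x i) := by
      rw [hPx, map_sub]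
      abel
    rw [h1]
    calc ‖(A k (x i) - x i) - w' (A k (x i) - x i)‖
        ≤ ‖A k (x i) - x i‖ + ‖w' (A k (x i) - x i)‖ := norm_sub_le _ _
      _ ≤ ‖A k (x i) - x i‖ + L * ‖A k (x i) - x i‖ := add_le_add le_rfl
          ((w'.le_opNorm _).trans (mul_le_mul_of_nonneg_right hwn' (norm_nonneg _)))
      _ = (1 + L) * ‖A k (x i) - x i‖ := by ring
      _ ≤ (1 + L) * (ε / (1 + L)) := mul_le_mul_of_nonneg_left (hk1 i).le (by positivity)
      _ = ε := by
          field_simp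

end Pool.Agent.Lib.MP_1910d6_an
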