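import Pool.Agent.Lib.MP_1910d6_an.A2

/-!
# The dual sequence of projections, and a `π`-basis of the space
-/

namespace Pool.Agent.Lib.MP_1910d6_an

open Filter Topology

variable {𝕜 : Type*} [RCLike 𝕜] {E : Type*} [NormedAddCommGroup E] [NormedSpace 𝕜 E]

/-- A bounded sequence of operators which is close to the identity at the terms of a dense
sequence converges strongly to the identity. -/
theorem tendsto_of_dense {x : ℕ → E} (hx : DenseRange x) {B : ℕ → E →L[𝕜] E} {M : ℝ}
    (hM0 : 0 ≤ M) (hM : ∀ j, ‖B j‖ ≤ M)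
    (hB : ∀ j i, i ≤ j → ‖B j (x i) - x i‖ ≤ 1 / ((j : ℝ) + 1)) (y : E) :
    Tendsto (fun j => B j y) atTop (𝓝 y) := by
  rw [Metric.tendsto_atTop]
  intro ε hε
  obtain ⟨i, hi⟩ := hx.exists_dist_lt y (show 0 < ε / (2 * (M + 1)) by positivity)
  obtain ⟨n, hn⟩ := exists_nat_one_div_lt (show 0 < ε / 2 by positivity)
  refine ⟨max n i, fun j hj => ?_⟩
  have h1 : B j y - y = (B j (y - x i) - (y - x i)) + (B j (x i) - x i) := by
    rw [map_sub]
    abel
  rw [dist_eq_norm, h1]
  rw [dist_eq_norm] at hi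
  have h2 : ‖B j (y - x i)‖ ≤ M * ‖y - x i‖ :=
    ((B j).le_opNorm _).trans (mul_le_mul_of_nonneg_right (hM j) (norm_nonneg _))
  have h3 : ‖B j (x i) - x i‖ < ε / 2 := by
    refine (hB j i ((le_max_right _ _).trans hj)).trans_lt (lt_of_le_of_lt ?_ hn)
    have h4 : (n : ℝ) ≤ j := by exact_mod_cast (le_max_left _ _).trans hj
    exact one_div_le_one_div_of_le (by positivity) (by linarith)
  have h5 : (M + 1) * ‖y - x i‖ < ε / 2 := by
    calc (M + 1) * ‖y - x i‖ < (M + 1) * (ε / (2 * (M + 1))) :=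
          mul_lt_mul_of_pos_left hi (by positivity)
      _ = ε / 2 := by field_simp
  calc ‖(B j (y - x i) - (y - x i)) + (B j (x i) - x i)‖
      ≤ (‖B j (y - x i)‖ + ‖y - x i‖) + ‖B j (x i) - x i‖ :=
        (norm_add_le _ _).trans (add_le_add (norm_sub_le _ _) le_rfl)
    _ < ε := by linarith

/-- The dual sequence of projections. -/
theorem exists_dual_seq [CompleteSpace E] [TopologicalSpace.SeparableSpace E]
    {v : ℕ → StrongDual 𝕜 E →L[𝕜] StrongDual 𝕜 E} (hv : IsWeakStarPiBasis v) :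
    ∃ P : ℕ → E →L[𝕜] E, (∀ j, IsFinRankProj (P j)) ∧ (∀ i j, i ≤ j → P i ∘L P j = P i) ∧
      ∀ x, Tendsto (fun j => P j x) atTop (𝓝 x) := by
  obtain ⟨c, hc0, hc⟩ := exists_bound_dual hv.2.2
  obtain ⟨M, hM0, hstep⟩ := exists_step hv hc0 hc
  have : Nonempty E := ⟨0⟩
  set x := TopologicalSpace.denseSeq E with hx
  have hpos : ∀ j : ℕ, (0 : ℝ) < 1 / ((j : ℝ) + 1) := fun m => by positivity
  choose K P hK hfr hn hvP hPv hPx using
    fun (N j : ℕ) => hstep N (fun i : Fin (j + 1) => x i) _ (hpos j)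
  let N : ℕ → ℕ := fun j => Nat.rec 0 (fun j N => K N j) j
  have hN : ∀ j, N (j + 1) = K (N j) j := fun j => rfl
  have hmono : Monotone N := monotone_nat_of_le_succ fun j => by rw [hN]; exact hK _ _
  have hPP : ∀ i j, i ≤ j → P (N i) i ∘L P (N j) j = P (N i) i := by
    intro i j hij
    ext z
    refine (SeparatingDual.eq_iff_forall_dual_eq (R := 𝕜)).2 fun f => ?_
    have h1 : v (N (j + 1)) (f ∘L P (N i) i) = f ∘L P (N i) i := by
      have h2 := hPv (N i) i f
      have h3 : v (N (j + 1)) (v (K (N i) i) (f ∘L P (N i) i))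
          = v (K (N i) i) (f ∘L P (N i) i) := by
        have h4 : K (N i) i ≤ N (j + 1) := by
          rw [← hN]
          exact hmono (Nat.succ_le_succ hij)
        exact congrArg (fun T => T (f ∘L P (N i) i)) ((hv.2.1) (N (j + 1)) (K (N i) i) h4)
      rwa [h2] at h3
    have h5 := hvP (N j) j (f ∘L P (N i) i)
    rw [← hN, h1] at h5
    exact congrArg (fun T => T z) h5
  refine ⟨fun j => P (N j) j, fun j => ⟨hPP j j le_rfl, hfr _ _⟩, hPP, fun y => ?_⟩
  refine tendsto_of_dense (TopologicalSpace.denseRange_denseSeq E) hM0 (fun j => hn _ _)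
    (fun j i hij => ?_) y
  exact hPx (N j) j ⟨i, Nat.lt_succ_of_le hij⟩

/-- A separable space with bounded projections converging strongly to the identity has a
`π`-basis. -/
theorem exists_piBasis [CompleteSpace E] [TopologicalSpace.SeparableSpace E]
    {P : ℕ → E →L[𝕜] E} (hP : ∀ j, IsFinRankProj (P j))
    (hconv : ∀ x, Tendsto (fun j => P j x) atTop (𝓝 x)) : ∃ u : ℕ → E →L[𝕜] E, IsPiBasis u := by
  obtain ⟨c, hc0, hc⟩ := exists_bound (L := id) hconv
  have hstep : ∀ (s : {u : E →L[𝕜] E // IsFinRankProj u}) (n : ℕ) (x : Fin n → E) (ε : ℝ), 0 < ε →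
      ∃ s' : {u : E →L[𝕜] E // IsFinRankProj u}, ‖s'.1‖ ≤ 2 * c ∧ s'.1 * s.1 = s.1 ∧
        ∀ i, ‖s'.1 (x i) - x i‖ ≤ ε := by
    rintro ⟨u, hu⟩ n x ε hε
    have huu : u * u = u := hu.1
    have ht : Tendsto (fun j => u - P j * u) atTop (𝓝 0) := by
      have h1 := FR.tendsto (T := u) hu.2 (S := P) (S₀ := ContinuousLinearMap.id 𝕜 E)
        fun x => hconv (u x)
      rw [ContinuousLinearMap.id_comp] at h1
      have h2 := (tendsto_const_nhds (x := u)).sub h1
      rwa [sub_self] at h2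
    have ht' : Tendsto (fun j => ‖u - P j * u‖) atTop (𝓝 0) := by
      simpa using ht.norm
    have he1 : ∀ᶠ j in atTop, ‖u - P j * u‖ < 1 / 2 :=
      ht'.eventually (gt_mem_nhds (by norm_num))
    have he2 : ∀ᶠ j in atTop, ∀ i, 2 * (‖P j (x i) - x i‖ + ‖u - P j * u‖ * ‖x i‖) < ε := by
      refine Filter.eventually_all.2 fun i => ?_
      have h1 : Tendsto (fun j => ‖P j (x i) - x i‖) atTop (𝓝 0) :=
        tendsto_iff_norm_sub_tendsto_zero.1 (hconv (x i))
      have h2 := (h1.add (ht'.mul_const ‖x i‖)).const_mul 2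
      rw [zero_mul, add_zero, mul_zero] at h2
      exact h2.eventually (gt_mem_nhds hε)
    obtain ⟨j, hj1, hj2⟩ := (he1.and he2).exists
    set t : E →L[𝕜] E := u - P j * u with htd
    have ht1 : ‖t‖ < 1 := by linarith
    set U := Units.oneSub t ht1 with hU
    set V : E →L[𝕜] E := ((U⁻¹ : (E →L[𝕜] E)ˣ) : E →L[𝕜] E) with hV
    have hUv : (U : E →L[𝕜] E) = 1 - t := rfl
    have hVU : V * (1 - t) = 1 := by rw [← hUv]; exact U.inv_mul
    have hUV : (1 - t) * V = 1 := by rw [← hUv]; exact U.mul_inv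
    have hinv : ‖V‖ ≤ 2 := by
      have h3 : V = ∑' n : ℕ, t ^ n := rfl
      rw [h3]
      refine (tsum_geometric_le_of_norm_lt_one t ht1).trans ?_
      have h4 : ‖(1 : E →L[𝕜] E)‖ ≤ 1 := ContinuousLinearMap.norm_id_le
      have h5 : (1 - ‖t‖)⁻¹ ≤ 2 := by
        rw [inv_le_comm₀ (by linarith) (by norm_num)]
        linarith
      linarith
    have hPP : P j * P j = P j := (hP j).1
    have hPt : P j * t = 0 := by
      rw [htd, mul_sub, ← mul_assoc, hPP, sub_self]
    have hPV : P j * V = P j := by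
      calc P j * V = P j * (1 - t) * V := by rw [mul_sub, mul_one, hPt, sub_zero]
        _ = P j := by rw [mul_assoc, hUV, mul_one]
    have hSu : (1 - t) * u = P j * u := by
      rw [sub_mul, one_mul, htd, sub_mul, huu, mul_assoc, huu]
      abel
    refine ⟨⟨V * P j, ?_, ?_⟩, ?_, ?_, fun i => ?_⟩
    · change V * P j * (V * P j) = V * P j
      rw [mul_assoc, ← mul_assoc (P j), hPV, hPP]
    · have : FiniteDimensional 𝕜 (LinearMap.range ((P j : E →L[𝕜] E) : E →ₗ[𝕜] E)) := (hP j).2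
      exact FR.of_le (T := V * P j)
        ((LinearMap.range ((P j : E →L[𝕜] E) : E →ₗ[𝕜] E)).map (V : E →ₗ[𝕜] E))
        fun z => ⟨P j z, ⟨z, rfl⟩, rfl⟩
    · exact (norm_mul_le _ _).trans (mul_le_mul hinv (hc j) (norm_nonneg _) (by norm_num))
    · change V * P j * u = u
      rw [mul_assoc, ← hSu, ← mul_assoc, hVU, one_mul]
    · have h1 : (V * P j) (x i) - x i = V ((P j (x i) - x i) + t (x i)) := by
        have h2 : V ((1 - t) (x i)) = x i := congrArg (fun T : E →L[𝕜] E => T (x i)) hVU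
        have h3 : V (P j (x i)) - V ((1 - t) (x i)) = V ((P j (x i) - x i) + t (x i)) := by
          rw [← map_sub]
          congr 1
          change P j (x i) - (x i - t (x i)) = _
          abel
        rw [h2] at h3
        exact h3
      change ‖(V * P j) (x i) - x i‖ ≤ ε
      rw [h1]
      refine le_trans ?_ (hj2 i).le
      refine (V.le_opNorm _).trans (mul_le_mul hinv ?_ (norm_nonneg _) (by norm_num))
      exact (norm_add_le _ _).trans (add_le_add le_rfl (t.le_opNorm _))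
  have : Nonempty E := ⟨0⟩
  set x := TopologicalSpace.denseSeq E with hx
  have hpos : ∀ j : ℕ, (0 : ℝ) < 1 / ((j : ℝ) + 1) := fun m => by positivity
  choose nx hn1 hn2 hn3 using
    fun (s : {u : E →L[𝕜] E // IsFinRankProj u}) (j : ℕ) =>
      hstep s (j + 1) (fun i : Fin (j + 1) => x i) _ (hpos j)
  have h0 : IsFinRankProj (0 : E →L[𝕜] E) := by
    refine ⟨by simp, ?_⟩
    exact FR.of_le (T := (0 : E →L[𝕜] E)) ⊥ fun x => by simp
  let σ : ℕ → {u : E →L[𝕜] E // IsFinRankProj u} := fun k => Nat.rec ⟨0, h0⟩ (fun j s => nx s j) k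
  have hσ : ∀ k, σ (k + 1) = nx (σ k) k := fun k => rfl
  refine ⟨fun k => (σ (k + 1)).1, fun k => (σ (k + 1)).2, fun m n hmn => ?_, fun y => ?_⟩
  · obtain ⟨d, rfl⟩ := Nat.exists_eq_add_of_le hmn
    induction d with
    | zero => exact (σ (n + 1)).2.1
    | succ d ih =>
      have h1 := ih (by omega)
      have h2 : (σ (n + d + 1 + 1)).1 * (σ (n + d + 1)).1 = (σ (n + d + 1)).1 := by
        rw [hσ (n + d + 1)]
        exact hn2 (σ (n + d + 1)) (n + d + 1)
      change (σ (n + d + 1 + 1)).1 * (σ (n + 1)).1 = (σ (n + 1)).1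
      change (σ (n + d + 1)).1 * (σ (n + 1)).1 = (σ (n + 1)).1 at h1
      calc (σ (n + d + 1 + 1)).1 * (σ (n + 1)).1
          = (σ (n + d + 1 + 1)).1 * ((σ (n + d + 1)).1 * (σ (n + 1)).1) := by rw [h1]
        _ = (σ (n + 1)).1 := by rw [← mul_assoc, h2, h1]
  · refine tendsto_of_dense (TopologicalSpace.denseRange_denseSeq E)
      (show (0 : ℝ) ≤ 2 * c by positivity) (fun j => hn1 (σ j) j) (fun j i hij => ?_) y
    exact hn3 (σ j) j ⟨i, Nat.lt_succ_of_le hij⟩

end Pool.Agent.Lib.MP_1910d6_an
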