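import Mathlib

/-!
# Weak* `π`-bases and finite dimensional decompositions: definitions

`E` is a normed space over `𝕜 = ℝ` or `ℂ`, and `StrongDual 𝕜 E` is its dual with the dual norm.
-/

namespace Pool.Agent.Lib.MP_1910d6_an

open Filter Topology

variable {𝕜 : Type*} [RCLike 𝕜] {E : Type*} [NormedAddCommGroup E] [NormedSpace 𝕜 E]

/-- A finite rank projection: a bounded operator `u` with `u² = u` and finite dimensional range. -/
def IsFinRankProj (u : E →L[𝕜] E) : Prop :=
  u ∘L u = u ∧ FiniteDimensional 𝕜 (LinearMap.range (u : E →ₗ[𝕜] E))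

/-- A `π`-basis of `E`: a sequence of finite rank projections `u n` with `u n x → x` for all `x`
and `u m ∘ u n = u n` for `n ≤ m`. -/
def IsPiBasis (u : ℕ → E →L[𝕜] E) : Prop :=
  (∀ n, IsFinRankProj (u n)) ∧ (∀ m n, n ≤ m → u m ∘L u n = u n) ∧
    ∀ x, Tendsto (fun n => u n x) atTop (𝓝 x)

/-- A weak* `π`-basis of the dual of `E`: a sequence of finite rank projections `v n` of the dual
with `v m ∘ v n = v n` for `n ≤ m` and `(v n f) x → f x` for all `f` and `x`.  The `v n` are
bounded for the norm of the dual; no weak* continuity is assumed. -/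
def IsWeakStarPiBasis (v : ℕ → StrongDual 𝕜 E →L[𝕜] StrongDual 𝕜 E) : Prop :=
  (∀ n, IsFinRankProj (v n)) ∧ (∀ m n, n ≤ m → v m ∘L v n = v n) ∧
    ∀ (f : StrongDual 𝕜 E) (x : E), Tendsto (fun n => v n f x) atTop (𝓝 (f x))

/-- The partial sum projections of a finite dimensional (Schauder) decomposition of `E`: finite
rank projections `p n` with `p m ∘ p n = p (min m n)` and `p n x → x` for all `x`. -/
def IsFDD (p : ℕ → E →L[𝕜] E) : Prop :=
  (∀ n, IsFinRankProj (p n)) ∧ (∀ m n, p m ∘L p n = p (min m n)) ∧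
    ∀ x, Tendsto (fun n => p n x) atTop (𝓝 x)

/-- A dual `π`-basis of `E`: finite rank projections `p n` with `p m ∘ p n = p m` for `m ≤ n`
(that is, with decreasing kernels) and `p n x → x` for all `x`. -/
def IsDualPiBasis (p : ℕ → E →L[𝕜] E) : Prop :=
  (∀ n, IsFinRankProj (p n)) ∧ (∀ m n, m ≤ n → p m ∘L p n = p m) ∧
    ∀ x, Tendsto (fun n => p n x) atTop (𝓝 x)

/-- A commuting approximating sequence: commuting operators `T n` of finite rank with
`T n x → x` for all `x`. -/
def IsCommApprox (T : ℕ → E →L[𝕜] E) : Prop :=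
  (∀ n, FiniteDimensional 𝕜 (LinearMap.range (T n : E →ₗ[𝕜] E))) ∧
    (∀ m n, T m ∘L T n = T n ∘L T m) ∧ ∀ x, Tendsto (fun n => T n x) atTop (𝓝 x)

end Pool.Agent.Lib.MP_1910d6_an
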