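import Pool.Agent.Lib.MP_1910d6_an.A2

/-!
# From an absorbing sequence and a `π`-basis to a finite dimensional decomposition
-/

namespace Pool.Agent.Lib.MP_1910d6_an

open Filter Topology

variable {𝕜 : Type*} [RCLike 𝕜] {E : Type*} [NormedAddCommGroup E] [NormedSpace 𝕜 E]

/-- The projection onto the range of `u m` along the kernel of `u m ∘ A i`. -/
theorem exists_q [CompleteSpace E] {u A : ℕ → E →L[𝕜] E} (hu : IsPiBasis u) (hA : Absorbing A)
    {Cu CA : ℝ} (hCu : ∀ n, ‖u n‖ ≤ Cu) (hCA : ∀ n, ‖A n‖ ≤ CA) (m : ℕ) :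
    ∃ q : E →L[𝕜] E, ‖q‖ ≤ 2 * (Cu * CA) ∧ u m * q = q ∧ q * u m = u m ∧
      Tendsto (fun j => q * A j) atTop (𝓝 q) := by
  have huu : u m * u m = u m := (hu.1 m).1
  have h1 : Tendsto (fun i => A i * u m) atTop (𝓝 (u m)) := by
    have := FR.tendsto (T := u m) (hu.1 m).2 (S := A) (S₀ := ContinuousLinearMap.id 𝕜 E)
      fun x => hA.conv (u m x)
    rwa [ContinuousLinearMap.id_comp] at this
  have h2 : Tendsto (fun i => u m * (A i * u m)) atTop (𝓝 (u m)) := by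
    have := h1.const_mul (u m)
    rwa [huu] at this
  obtain ⟨i, hi⟩ := ((tendsto_iff_norm_sub_tendsto_zero.1 h2).eventually
    (gt_mem_nhds (show (0 : ℝ) < 1 / 2 by norm_num))).exists
  set t : E →L[𝕜] E := u m - u m * (A i * u m) with ht
  have htn : ‖t‖ < 1 / 2 := by rwa [ht, norm_sub_rev]
  have htn1 : ‖t‖ < 1 := by linarith
  set U := Units.oneSub t htn1 with hU
  have hUv : (U : E →L[𝕜] E) = 1 - t := rfl
  have hUl : (U : E →L[𝕜] E) * u m = u m * (A i * u m) := by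
    rw [hUv, sub_mul, one_mul, ht, sub_mul, huu]
    have : u m * (A i * u m) * u m = u m * (A i * u m) := by
      rw [mul_assoc, mul_assoc, huu]
    rw [this]
    abel
  have hUr : u m * (U : E →L[𝕜] E) = u m * (A i * u m) := by
    rw [hUv, mul_sub, mul_one, ht, mul_sub, huu, ← mul_assoc, huu]
    abel
  have hcomm : Commute (U : E →L[𝕜] E) (u m) := hUl.trans hUr.symm
  have hcomm' : Commute ((U⁻¹ : (E →L[𝕜] E)ˣ) : E →L[𝕜] E) (u m) := hcomm.units_inv_left
  have hinv : ‖((U⁻¹ : (E →L[𝕜] E)ˣ) : E →L[𝕜] E)‖ ≤ 2 := by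
    have h3 : ((U⁻¹ : (E →L[𝕜] E)ˣ) : E →L[𝕜] E) = ∑' n : ℕ, t ^ n := rfl
    rw [h3]
    refine (tsum_geometric_le_of_norm_lt_one t htn1).trans ?_
    have h4 : ‖(1 : E →L[𝕜] E)‖ ≤ 1 := ContinuousLinearMap.norm_id_le
    have h5 : (1 - ‖t‖)⁻¹ ≤ 2 := by
      rw [inv_le_comm₀ (by linarith) (by norm_num)]
      linarith
    linarith
  refine ⟨(U⁻¹ : (E →L[𝕜] E)ˣ) * (u m * A i), ?_, ?_, ?_, ?_⟩
  · have hCA0 : 0 ≤ CA := (norm_nonneg _).trans (hCA i)
    have hCu0 : 0 ≤ Cu := (norm_nonneg _).trans (hCu m)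
    refine (norm_mul_le _ _).trans (mul_le_mul hinv ?_ (norm_nonneg _) (by norm_num))
    exact (norm_mul_le _ _).trans (mul_le_mul (hCu m) (hCA i) (norm_nonneg _) hCu0)
  · rw [← mul_assoc, ← hcomm'.eq, mul_assoc, ← mul_assoc (u m) (u m), huu]
  · rw [mul_assoc, mul_assoc, ← hUl, ← mul_assoc, Units.inv_mul, one_mul]
  · have h3 : ∀ j, (U⁻¹ : (E →L[𝕜] E)ˣ) * (u m * A i) * A j
        = (U⁻¹ : (E →L[𝕜] E)ˣ) * (u m * (A i * A j)) := fun j => by
      rw [mul_assoc, mul_assoc]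
    simp_rw [h3]
    exact ((hA.abs i).const_mul (u m)).const_mul _

/-- A right inverse of a finite rank operator with values in one of the ranges of the `u m`. -/
theorem exists_r [CompleteSpace E] {u : ℕ → E →L[𝕜] E} (hu : IsPiBasis u) {S : E →L[𝕜] E}
    (hS : FR S) :
    ∃ (r : E →L[𝕜] E) (K : ℝ) (m : ℕ), 0 ≤ K ∧ u m * r = r ∧ S * r = S ∧
      ∀ X, ‖r * X‖ ≤ K * ‖S * X‖ := by
  have : FiniteDimensional 𝕜 (LinearMap.range (S : E →ₗ[𝕜] E)) := hS
  set V := LinearMap.range (S : E →ₗ[𝕜] E) with hV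
  have : CompleteSpace V := FiniteDimensional.complete 𝕜 V
  let S' : E →L[𝕜] V := S.codRestrict V (fun x => ⟨x, rfl⟩)
  have hS' : ∀ x, ((S' x : V) : E) = S x := fun x => rfl
  obtain ⟨τ, hτ⟩ := S'.exists_rightInverse_of_surjective (by
    rw [LinearMap.range_eq_top]
    rintro ⟨_, x, rfl⟩
    exact ⟨x, rfl⟩)
  have hτf : FR τ := LinearMap.finiteDimensional_range _
  have hlim : Tendsto (fun k => (S' ∘L u k) ∘L τ) atTop (𝓝 (1 : V →L[𝕜] V)) := by
    have := FR.tendsto (T := τ) hτf (S := fun k => S' ∘L u k) (S₀ := S') fun x =>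
      (S'.continuous.tendsto _).comp (hu.2.2 (τ x))
    rwa [hτ] at this
  obtain ⟨m, hm⟩ := (hlim.eventually (Units.isOpen.mem_nhds isUnit_one)).exists
  obtain ⟨U, hU⟩ := hm
  set ρ : V →L[𝕜] E := u m ∘L τ ∘L ((U⁻¹ : (V →L[𝕜] V)ˣ) : V →L[𝕜] V) with hρ
  have hSρ : ∀ y, S' (ρ y) = y := by
    intro y
    have h1 : (U : V →L[𝕜] V) (((U⁻¹ : (V →L[𝕜] V)ˣ) : V →L[𝕜] V) y) = y :=
      congrArg (fun T : V →L[𝕜] V => T y) U.mul_inv
    rw [hU] at h1
    exact h1
  have huu : ∀ x, u m (u m x) = u m x := fun x => congrArg (fun T => T x) (hu.1 m).1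
  refine ⟨ρ ∘L S', ‖ρ‖, m, norm_nonneg _, ?_, ?_, fun X => ?_⟩
  · ext x
    exact huu _
  · ext x
    have h1 : S (ρ (S' x)) = S x := by
      rw [← hS', hSρ, hS']
    exact h1
  · refine ContinuousLinearMap.opNorm_le_bound _ (by positivity) fun x => ?_
    have h1 : ‖S' (X x)‖ = ‖(S * X) x‖ := rfl
    calc ‖(ρ ∘L S' * X) x‖ = ‖ρ (S' (X x))‖ := rfl
      _ ≤ ‖ρ‖ * ‖S' (X x)‖ := ρ.le_opNorm _
      _ ≤ ‖ρ‖ * (‖S * X‖ * ‖x‖) := by
          rw [h1]
          exact mul_le_mul_of_nonneg_left ((S * X).le_opNorm x) (norm_nonneg _)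
      _ = ‖ρ‖ * ‖S * X‖ * ‖x‖ := by ring

theorem exists_T [CompleteSpace E] {u A : ℕ → E →L[𝕜] E} (hu : IsPiBasis u) (hA : Absorbing A) :
    ∃ M : ℝ, 0 ≤ M ∧ ∀ (m : ℕ) (S : E →L[𝕜] E), FR S → Tendsto (fun j => S * A j) atTop (𝓝 S) →
      ∃ (T : E →L[𝕜] E) (m' : ℕ), m < m' ∧ FR T ∧ ‖T‖ ≤ M ∧ T * u m = u m ∧ S * T = S ∧
        u m' * T = T ∧ Tendsto (fun j => T * A j) atTop (𝓝 T) := by
  obtain ⟨Cu, hCu0, hCu⟩ := exists_bound (L := id) hu.2.2
  obtain ⟨CA, hCA0, hCA⟩ := exists_bound (L := id) hA.conv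
  set Mq := 2 * (Cu * CA) with hMq
  have hMq0 : 0 ≤ Mq := by positivity
  refine ⟨Mq + (Cu * CA + 1) * (1 + Mq), by positivity, fun m S hS hSA => ?_⟩
  obtain ⟨q, hqn, huq, hqu, hqA⟩ := exists_q hu hA hCu hCA m
  obtain ⟨r, K, m₁, hK0, hur, hSr, hrX⟩ := exists_r hu hS
  -- choice of `j`
  have hj : ∀ᶠ j in atTop, K * ‖S * A j - S‖ < 1 / 2 := by
    have h1 := (tendsto_iff_norm_sub_tendsto_zero.1 hSA).const_mul K
    rw [mul_zero] at h1
    exact h1.eventually (gt_mem_nhds (by norm_num))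
  obtain ⟨j, hj⟩ := hj.exists
  -- choice of `m'`
  have hm' : ∀ᶠ n in atTop, K * ‖S‖ * ‖u n * A j - A j‖ < 1 / 2 := by
    have h1 : Tendsto (fun n => u n * A j) atTop (𝓝 (A j)) := by
      have := FR.tendsto (T := A j) (hA.fr j) (S := u) (S₀ := ContinuousLinearMap.id 𝕜 E)
        fun x => hu.2.2 (A j x)
      rwa [ContinuousLinearMap.id_comp] at this
    have h2 := (tendsto_iff_norm_sub_tendsto_zero.1 h1).const_mul (K * ‖S‖)
    rw [mul_zero] at h2
    exact h2.eventually (gt_mem_nhds (by norm_num))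
  obtain ⟨m', hm1, hm2, hm3⟩ := (hm'.and ((eventually_ge_atTop m₁).and
    (eventually_gt_atTop m))).exists
  set a : E →L[𝕜] E := u m' * A j with ha
  have hu2 : ∀ n, n ≤ m' → u m' * u n = u n := fun n hn => hu.2.1 m' n hn
  have hraux : ‖r * (1 - a)‖ ≤ 1 := by
    refine (hrX _).trans ?_
    have h1 : S * (1 - a) = -(S * A j - S) - S * (u m' * A j - A j) := by
      rw [ha]
      noncomm_ring
    have h2 : ‖S * (1 - a)‖ ≤ ‖S * A j - S‖ + ‖S‖ * ‖u m' * A j - A j‖ := by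
      rw [h1]
      refine (norm_sub_le _ _).trans (add_le_add (norm_neg _).le (norm_mul_le _ _))
    calc K * ‖S * (1 - a)‖ ≤ K * (‖S * A j - S‖ + ‖S‖ * ‖u m' * A j - A j‖) :=
          mul_le_mul_of_nonneg_left h2 hK0
      _ = K * ‖S * A j - S‖ + K * ‖S‖ * ‖u m' * A j - A j‖ := by ring
      _ ≤ 1 := by linarith
  set T : E →L[𝕜] E := q + (a + r * (1 - a)) * (1 - q) with hT
  have hT1 : T = 1 - (1 - r) * (1 - a) * (1 - q) := by
    rw [hT]
    noncomm_ring
  have hT2 : T = (1 - a - r + r * a) * q + (1 - r) * a + r := by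
    rw [hT]
    noncomm_ring
  have huT : u m' * T = T := by
    have h1 : u m' * q = q := by rw [← huq, ← mul_assoc, hu2 m hm3.le]
    have h2 : u m' * a = a := by rw [ha, ← mul_assoc, hu2 m' le_rfl]
    have h3 : u m' * r = r := by rw [← hur, ← mul_assoc, hu2 m₁ hm2]
    rw [hT, mul_add, h1, ← mul_assoc, mul_add, h2, ← mul_assoc, h3]
  refine ⟨T, m', hm3, ?_, ?_, ?_, ?_, huT, ?_⟩
  · rw [← huT]
    exact FR.comp_left (hu.1 m').2 T
  · have h1 : ‖(1 : E →L[𝕜] E) - q‖ ≤ 1 + Mq :=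
      (norm_sub_le _ _).trans (add_le_add ContinuousLinearMap.norm_id_le hqn)
    have h2 : ‖a‖ ≤ Cu * CA :=
      (norm_mul_le _ _).trans (mul_le_mul (hCu _) (hCA _) (norm_nonneg _) hCu0)
    refine (norm_add_le _ _).trans (add_le_add hqn ?_)
    refine (norm_mul_le _ _).trans (mul_le_mul ?_ h1 (norm_nonneg _) (by positivity))
    exact (norm_add_le _ _).trans (add_le_add h2 hraux)
  · have h1 : (1 - q) * u m = 0 := by rw [sub_mul, one_mul, hqu, sub_self]
    have h2 : T * u m = u m - (1 - r) * (1 - a) * ((1 - q) * u m) := by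
      rw [hT1]
      noncomm_ring
    rw [h2, h1, mul_zero, sub_zero]
  · have h1 : S * (1 - r) = 0 := by rw [mul_sub, mul_one, hSr, sub_self]
    have h2 : S * T = S - S * (1 - r) * ((1 - a) * (1 - q)) := by
      rw [hT1]
      noncomm_ring
    rw [h2, h1, zero_mul, sub_zero]
  · have hrA : Tendsto (fun i => r * A i) atTop (𝓝 r) := by
      refine tendsto_iff_norm_sub_tendsto_zero.2 (squeeze_zero (fun _ => norm_nonneg _)
        (fun i => ?_) (by simpa using (tendsto_iff_norm_sub_tendsto_zero.1 hSA).const_mul K))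
      have h1 : r * A i - r = r * (A i - 1) := by rw [mul_sub, mul_one]
      have h2 : S * A i - S = S * (A i - 1) := by rw [mul_sub, mul_one]
      rw [h1, h2]
      exact hrX _
    have haA : Tendsto (fun i => a * A i) atTop (𝓝 a) := by
      have h1 := (hA.abs j).const_mul (u m')
      refine h1.congr fun i => ?_
      rw [ha, mul_assoc]
      rfl
    have h1 := (((hqA.const_mul (1 - a - r + r * a)).add (haA.const_mul (1 - r))).add hrA)
    rw [← hT2] at h1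
    refine h1.congr fun i => ?_
    rw [hT2]
    noncomm_ring

/-- The recursively constructed operators. -/
theorem exists_seq [CompleteSpace E] {u A : ℕ → E →L[𝕜] E} (hu : IsPiBasis u)
    (hA : Absorbing A) : ∃ (M : ℝ) (T : ℕ → E →L[𝕜] E) (μ : ℕ → ℕ), 0 ≤ M ∧ (∀ k, ‖T k‖ ≤ M) ∧
      (∀ k, T (k + 1) * u (μ k) = u (μ k)) ∧ (∀ k, T k * T (k + 1) = T k) ∧
      (∀ k, u (μ k) * T k = T k) ∧ StrictMono μ := by
  obtain ⟨M, hM0, hstep⟩ := exists_T hu hA
  let St : Type _ := {s : (E →L[𝕜] E) × ℕ // FR s.1 ∧ Tendsto (fun j => s.1 * A j) atTop (𝓝 s.1)}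
  have hstep' : ∀ s : St, ∃ s' : St, s.1.2 < s'.1.2 ∧ ‖s'.1.1‖ ≤ M ∧
      s'.1.1 * u s.1.2 = u s.1.2 ∧ s.1.1 * s'.1.1 = s.1.1 ∧ u s'.1.2 * s'.1.1 = s'.1.1 := by
    intro s
    obtain ⟨T, m', h1, h2, h3, h4, h5, h6, h7⟩ := hstep s.1.2 s.1.1 s.2.1 s.2.2
    exact ⟨⟨(T, m'), h2, h7⟩, h1, h3, h4, h5, h6⟩
  choose nx hn1 hn2 hn3 hn4 hn5 using hstep'
  have hFR0 : FR (0 : E →L[𝕜] E) := FR.of_le ⊥ fun x => by simp
  let s0 : St := ⟨(0, 0), hFR0, by simp⟩
  let σ : ℕ → St := fun k => Nat.rec s0 (fun _ s => nx s) k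
  refine ⟨M, fun k => (σ k).1.1, fun k => (σ k).1.2, hM0, ?_, fun k => hn3 (σ k),
    fun k => hn4 (σ k), ?_, strictMono_nat_of_lt_succ fun k => hn1 (σ k)⟩
  · intro k
    cases k with
    | zero => exact (norm_zero (E := E →L[𝕜] E)).trans_le hM0
    | succ k => exact hn2 (σ k)
  · intro k
    cases k with
    | zero => exact mul_zero (u 0)
    | succ k => exact hn5 (σ k)

theorem mul_absorb {R : Type*} [Semigroup R] {T : ℕ → R} (h : ∀ k, T k * T (k + 1) = T k) :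
    ∀ i j, i < j → T i * T j = T i := by
  intro i j hij
  obtain ⟨n, rfl⟩ := Nat.exists_eq_add_of_lt hij
  induction n with
  | zero => exact h i
  | succ n ih =>
    have h1 := ih (by omega)
    have h2 := h (i + n + 1)
    calc T i * T (i + n + 1 + 1) = T i * T (i + n + 1) * T (i + n + 1 + 1) := by rw [h1]
      _ = T i := by rw [mul_assoc, h2, h1]

/-- The main construction: a `π`-basis and an absorbing sequence give a finite dimensional
decomposition. -/
theorem exists_fdd [CompleteSpace E] {u A : ℕ → E →L[𝕜] E} (hu : IsPiBasis u)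
    (hA : Absorbing A) : ∃ p : ℕ → E →L[𝕜] E, IsFDD p := by
  obtain ⟨Cu, hCu0, hCu⟩ := exists_bound (L := id) hu.2.2
  obtain ⟨M, T, μ, hM0, hTM, hTu, hTT1, huT, hμ⟩ := exists_seq hu hA
  have hTT : ∀ i j, i < j → T i * T j = T i := mul_absorb hTT1
  have huu : ∀ m, u m * u m = u m := fun m => (hu.1 m).1
  obtain ⟨Q, hQk⟩ : ∃ Q : ℕ → E →L[𝕜] E, ∀ k, Q k = u (μ k) * T (k + 1) :=
    ⟨fun k => u (μ k) * T (k + 1), fun k => rfl⟩
  obtain ⟨P, hPk⟩ : ∃ P : ℕ → E →L[𝕜] E, ∀ k, P k = Q k + T k - T k * Q k :=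
    ⟨fun k => Q k + T k - T k * Q k, fun k => rfl⟩
  have hQu : ∀ k, Q k * u (μ k) = u (μ k) := by
    intro k
    rw [hQk, mul_assoc, hTu, huu]
  have huQ : ∀ k, u (μ k) * Q k = Q k := by
    intro k
    rw [hQk, ← mul_assoc, huu]
  have hPu : ∀ k, P k * u (μ k) = u (μ k) := by
    intro k
    rw [hPk, sub_mul, add_mul, mul_assoc (T k), hQu]
    abel
  have huP : ∀ k, u (μ k) * P k = P k := by
    intro k
    rw [hPk, mul_sub, mul_add, ← mul_assoc (u (μ k)) (T k), huQ, huT]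
  have hTP : ∀ i k, i < k → T i * P k = T i := by
    intro i k hik
    rw [hPk, mul_sub, mul_add, ← mul_assoc (T i) (T k), hTT i k hik]
    abel
  have hPT : ∀ k j, k + 2 ≤ j → P k * T j = P k := by
    intro k j hkj
    have h1 : Q k * T j = Q k := by rw [hQk, mul_assoc, hTT (k + 1) j (by omega)]
    rw [hPk, sub_mul, add_mul, mul_assoc (T k), h1, hTT k j (by omega)]
  have hPP1 : ∀ i j, i ≤ j → P j * P i = P i := by
    intro i j hij
    have h0 : u (μ j) * u (μ i) = u (μ i) := hu.2.1 _ _ (hμ.monotone hij)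
    have h1 : u (μ j) * P i = P i := by
      calc u (μ j) * P i = u (μ j) * (u (μ i) * P i) := by rw [huP]
        _ = P i := by rw [← mul_assoc, h0, huP]
    calc P j * P i = P j * (u (μ j) * P i) := by rw [h1]
      _ = P i := by rw [← mul_assoc, hPu, h1]
  have hPP2 : ∀ i j, i + 3 ≤ j → P i * P j = P i := by
    intro i j hij
    calc P i * P j = P i * T (i + 2) * P j := by rw [hPT i (i + 2) le_rfl]
      _ = P i := by rw [mul_assoc, hTP (i + 2) j (by omega), hPT i (i + 2) le_rfl]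
  have hPn : ∀ k, ‖P k‖ ≤ Cu * M + M + M * (Cu * M) := by
    intro k
    have h1 : ‖Q k‖ ≤ Cu * M := by
      rw [hQk]
      exact (norm_mul_le _ _).trans (mul_le_mul (hCu _) (hTM _) (norm_nonneg _) hCu0)
    rw [hPk]
    refine (norm_sub_le _ _).trans (add_le_add ((norm_add_le _ _).trans
      (add_le_add h1 (hTM k))) ?_)
    exact (norm_mul_le _ _).trans (mul_le_mul (hTM k) h1 (norm_nonneg _) hM0)
  have hconv : ∀ x, Tendsto (fun k => P k x) atTop (𝓝 x) := by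
    intro x
    have h1 : Tendsto (fun k => ‖x - u (μ k) x‖) atTop (𝓝 0) := by
      have := (tendsto_const_nhds (x := x)).sub ((hu.2.2 x).comp hμ.tendsto_atTop)
      simpa using this.norm
    have h2 := h1.const_mul (Cu * M + M + M * (Cu * M) + 1)
    rw [mul_zero] at h2
    refine tendsto_iff_norm_sub_tendsto_zero.2 (squeeze_zero (fun _ => norm_nonneg _)
      (fun k => ?_) h2)
    have h3 : P k (u (μ k) x) = u (μ k) x := congrArg (fun T => T x) (hPu k)
    have h4 : P k x - x = P k (x - u (μ k) x) - (x - u (μ k) x) := by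
      rw [map_sub, h3]
      abel
    rw [h4, add_mul, one_mul]
    exact (norm_sub_le _ _).trans (add_le_add ((ContinuousLinearMap.le_opNorm _ _).trans
      (mul_le_mul_of_nonneg_right (hPn k) (norm_nonneg _))) le_rfl)
  refine ⟨fun n => P (3 * n), fun n => ⟨hPP1 _ _ le_rfl, ?_⟩, fun m n => ?_, fun x => ?_⟩
  · change FR (P (3 * n))
    rw [← huP (3 * n)]
    exact FR.comp_left (hu.1 _).2 _
  · rcases lt_trichotomy m n with h | h | h
    · rw [min_eq_left h.le]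
      exact hPP2 _ _ (by omega)
    · subst h
      rw [min_self]
      exact hPP1 _ _ le_rfl
    · rw [min_eq_right h.le]
      exact hPP1 _ _ (by omega)
  · exact (hconv x).comp (tendsto_id.const_mul_atTop' (by norm_num : 0 < 3))

end Pool.Agent.Lib.MP_1910d6_an
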