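import Pool.Agent.Lib.MP_1910d6_an.A3
import Pool.Agent.Lib.MP_1910d6_an.StepB

/-!
# Weak* `π`-bases of the dual and finite dimensional decompositions
-/

namespace Pool.Agent.Lib.MP_1910d6_an

open Filter Topology

variable {𝕜 : Type*} [RCLike 𝕜] {E : Type*} [NormedAddCommGroup E] [NormedSpace 𝕜 E]

theorem weakStar_of_fdd {p : ℕ → E →L[𝕜] E} (hp : IsFDD p) :
    ∃ v : ℕ → StrongDual 𝕜 E →L[𝕜] StrongDual 𝕜 E, IsWeakStarPiBasis v ∧
      ∀ n, ∃ q : E →L[𝕜] E, ∀ f, v n f = f ∘L q := by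
  obtain ⟨h1, h2, h3⟩ := hp
  refine ⟨fun n => (ContinuousLinearMap.compL 𝕜 E E 𝕜).flip (p n), ⟨fun n => ⟨?_, ?_⟩,
    fun m n hmn => ?_, fun f x => ?_⟩, fun n => ⟨p n, fun f => rfl⟩⟩
  · ext f x
    exact congrArg f (congrArg (fun T => T x) (h1 n).1)
  · obtain ⟨d, φ, a, -, hφ⟩ := FR.repr (h1 n).2
    have : FiniteDimensional 𝕜 (Submodule.span 𝕜 (Set.range φ)) :=
      FiniteDimensional.span_of_finite 𝕜 (Set.finite_range φ)
    refine FR.of_le (Submodule.span 𝕜 (Set.range φ)) fun f => ?_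
    have h4 : (ContinuousLinearMap.compL 𝕜 E E 𝕜).flip (p n) f = ∑ i, f (a i) • φ i := by
      ext x
      have h5 : p n x = ∑ i, φ i x • a i := by
        rw [hφ]
        simp
      change f (p n x) = _
      rw [h5]
      simp [mul_comm]
    rw [h4]
    exact Submodule.sum_mem _ fun i _ => Submodule.smul_mem _ _ (Submodule.subset_span ⟨i, rfl⟩)
  · ext f x
    have h4 := congrArg (fun T => T x) (h2 n m)
    rw [min_eq_left hmn] at h4
    exact congrArg f h4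
  · exact (f.continuous.tendsto x).comp (h3 x)

theorem absorbing_of_comm {T : ℕ → E →L[𝕜] E} (hT : IsCommApprox T) : Absorbing T := by
  obtain ⟨h1, h2, h3⟩ := hT
  refine ⟨h1, h3, fun i => ?_⟩
  have h4 := FR.tendsto (T := T i) (h1 i) (S := T) (S₀ := ContinuousLinearMap.id 𝕜 E)
    fun x => h3 (T i x)
  rw [ContinuousLinearMap.id_comp] at h4
  exact h4.congr fun j => h2 j i

theorem comm_of_fdd {p : ℕ → E →L[𝕜] E} (hp : IsFDD p) : IsCommApprox p :=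
  ⟨fun n => (hp.1 n).2, fun m n => by rw [hp.2.1, hp.2.1, min_comm], hp.2.2⟩

theorem piBasis_of_fdd {p : ℕ → E →L[𝕜] E} (hp : IsFDD p) : IsPiBasis p :=
  ⟨hp.1, fun m n hmn => by rw [hp.2.1, min_eq_right hmn], hp.2.2⟩

theorem dual_of_fdd {p : ℕ → E →L[𝕜] E} (hp : IsFDD p) : IsDualPiBasis p :=
  ⟨hp.1, fun m n hmn => by rw [hp.2.1, min_eq_left hmn], hp.2.2⟩

theorem fdd_of_dual [CompleteSpace E] [TopologicalSpace.SeparableSpace E] {P : ℕ → E →L[𝕜] E}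
    (hP : IsDualPiBasis P) : ∃ p : ℕ → E →L[𝕜] E, IsFDD p := by
  obtain ⟨h1, h2, h3⟩ := hP
  obtain ⟨u, hu⟩ := exists_piBasis h1 h3
  refine exists_fdd hu (A := P) ⟨fun j => (h1 j).2, h3, fun i => ?_⟩
  refine tendsto_const_nhds.congr' ?_
  filter_upwards [eventually_ge_atTop i] with j hj
  exact (h2 i j hj).symm

theorem main [CompleteSpace E] [TopologicalSpace.SeparableSpace E] :
    List.TFAE [
      ∃ v : ℕ → StrongDual 𝕜 E →L[𝕜] StrongDual 𝕜 E, IsWeakStarPiBasis v,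
      ∃ v : ℕ → StrongDual 𝕜 E →L[𝕜] StrongDual 𝕜 E, IsWeakStarPiBasis v ∧
        ∀ n, ∃ q : E →L[𝕜] E, ∀ f, v n f = f ∘L q,
      ∃ p : ℕ → E →L[𝕜] E, IsFDD p,
      ∃ p : ℕ → E →L[𝕜] E, IsDualPiBasis p,
      (∃ u : ℕ → E →L[𝕜] E, IsPiBasis u) ∧ ∃ T : ℕ → E →L[𝕜] E, IsCommApprox T] := by
  tfae_have 1 → 4 := fun ⟨v, hv⟩ => exists_dual_seq hv
  tfae_have 4 → 3 := fun ⟨p, hp⟩ => fdd_of_dual hp
  tfae_have 3 → 2 := fun ⟨p, hp⟩ => weakStar_of_fdd hp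
  tfae_have 2 → 1 := fun ⟨v, hv, _⟩ => ⟨v, hv⟩
  tfae_have 3 → 5 := fun ⟨p, hp⟩ => ⟨⟨p, piBasis_of_fdd hp⟩, ⟨p, comm_of_fdd hp⟩⟩
  tfae_have 5 → 3 := fun ⟨⟨u, hu⟩, ⟨T, hT⟩⟩ => exists_fdd hu (absorbing_of_comm hT)
  tfae_finish

/-- A space with a `π`-basis is separable. -/
theorem separable_of_piBasis {u : ℕ → E →L[𝕜] E} (hu : IsPiBasis u) :
    TopologicalSpace.SeparableSpace E := by
  obtain ⟨h1, -, h3⟩ := hu
  have hsep : TopologicalSpace.IsSeparable (⋃ n, Set.range (u n)) := by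
    refine TopologicalSpace.IsSeparable.iUnion fun n => ?_
    have : FiniteDimensional 𝕜 (LinearMap.range ((u n : E →L[𝕜] E) : E →ₗ[𝕜] E)) := (h1 n).2
    have h4 : TopologicalSpace.SeparableSpace
        (LinearMap.range ((u n : E →L[𝕜] E) : E →ₗ[𝕜] E)) := by
      have := FiniteDimensional.proper 𝕜 (LinearMap.range ((u n : E →L[𝕜] E) : E →ₗ[𝕜] E))
      infer_instance
    have h5 : Set.range (u n)
        = ((LinearMap.range ((u n : E →L[𝕜] E) : E →ₗ[𝕜] E) : Submodule 𝕜 E) : Set E) := by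
      ext z
      simp
    rw [h5]
    exact TopologicalSpace.IsSeparable.of_subtype _
  have hdense : Set.univ ⊆ closure (⋃ n, Set.range (u n)) := by
    intro x _
    exact mem_closure_of_tendsto (h3 x)
      (Eventually.of_forall fun n => Set.mem_iUnion.2 ⟨n, x, rfl⟩)
  exact TopologicalSpace.isSeparable_univ_iff.1 (hsep.closure.mono hdense)

end Pool.Agent.Lib.MP_1910d6_an
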